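import Mathlib

set_option autoImplicit false

/-!
# Real lifts of circle-valued maps on convex sets
-/

namespace Pool.Agent.H84.CL

open Set unitInterval

variable {E : Type*} [AddCommGroup E] [Module ℝ E] [TopologicalSpace E] [IsTopologicalAddGroup E]
  [ContinuousSMul ℝ E]

/-- A circle-valued map continuous on a convex set has a continuous real lift there. -/
theorem exists_lift {s : Set E} (hs : Convex ℝ s) {f : E → Circle} (hf : ContinuousOn f s) :
    ∃ g : E → ℝ, ContinuousOn g s ∧ ∀ w ∈ s, f w = Circle.exp (g w) := by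
  classical
  rcases s.eq_empty_or_nonempty with rfl | ⟨x0, hx0⟩
  · exact ⟨fun _ => 0, continuousOn_empty _, fun w hw => absurd hw (notMem_empty w)⟩
  have key : ∀ (t : I) (a : s), (1 - (t : ℝ)) • x0 + (t : ℝ) • (a : E) ∈ s := by
    intro t a
    exact hs hx0 a.2 (by linarith [t.2.2]) t.2.1 (by ring)
  let G : I × s → s := fun p => ⟨(1 - (p.1 : ℝ)) • x0 + (p.1 : ℝ) • (p.2 : E), key p.1 p.2⟩
  have hG : Continuous G := by
    apply Continuous.subtype_mk
    fun_prop
  let H : C(I × s, Circle) := ⟨fun p => f (G p), by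
    have h1 : Continuous (fun w : s => f w) := continuousOn_iff_continuous_domRestrict.1 hf
    exact h1.comp hG⟩
  obtain ⟨e0, he0⟩ : ∃ e0 : ℝ, Circle.exp e0 = f x0 := Circle.exp_surjective (f x0)
  let F0 : C(s, ℝ) := ContinuousMap.const _ e0
  have H0 : ∀ a : s, H (0, a) = Circle.exp (F0 a) := by
    intro a
    show f ((1 - ((0 : I) : ℝ)) • x0 + ((0 : I) : ℝ) • (a : E)) = Circle.exp e0
    rw [he0]
    simp
  let L := Circle.isCoveringMap_exp.liftHomotopy H F0 H0
  have hL : Circle.exp ∘ L = H := Circle.isCoveringMap_exp.liftHomotopy_lifts H F0 H0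
  refine ⟨fun w => if h : w ∈ s then L (1, ⟨w, h⟩) else 0, ?_, ?_⟩
  · rw [continuousOn_iff_continuous_domRestrict]
    have h1 : s.domRestrict (fun w => if h : w ∈ s then L (1, ⟨w, h⟩) else 0) =
        fun a : s => L (1, a) := by
      funext a
      simp [Set.domRestrict_apply]
    rw [h1]
    exact L.continuous.comp (Continuous.prodMk_right 1)
  · intro w hw
    simp only [hw, dif_pos]
    have h2 := congrFun hL (1, ⟨w, hw⟩)
    simp only [Function.comp_apply] at h2
    rw [h2]
    show f w = f ((1 - ((1 : I) : ℝ)) • x0 + ((1 : I) : ℝ) • w)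
    simp

/-- Two lifts on a preconnected set have the same increments. -/
theorem lift_sub_eq {X : Type*} [TopologicalSpace X] {s : Set X} (hs : IsPreconnected s)
    {g h : X → ℝ} (hg : ContinuousOn g s) (hh : ContinuousOn h s)
    (he : ∀ w ∈ s, Circle.exp (g w) = Circle.exp (h w)) {x y : X} (hx : x ∈ s) (hy : y ∈ s) :
    g y - g x = h y - h x := by
  obtain ⟨m, hm⟩ := Circle.exp_eq_exp.1 (he x hx)
  have h1 : ContinuousOn (fun w => h w + m * (2 * Real.pi)) s := hh.add continuousOn_const
  have h2 : EqOn g (fun w => h w + m * (2 * Real.pi)) s := by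
    apply Circle.isCoveringMap_exp.eqOn_of_comp_eqOn hs hg h1 _ hx hm
    intro w hw
    show Circle.exp (g w) = Circle.exp (h w + m * (2 * Real.pi))
    rw [Circle.exp_add, Circle.exp_int_mul_two_pi, mul_one]
    exact he w hw
  have h3 := h2 hx
  have h4 := h2 hy
  simp only at h3 h4
  rw [h3, h4]
  ring

end Pool.Agent.H84.CL
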