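import Mathlib
import Pool.Agent.H84.CL.Lift

set_option autoImplicit false

/-!
# Edge increments of circle-valued maps on a simplicial complex

`V` is a finite vertex type, points of the realization are functions `V → ℝ` (barycentric
coordinates); `splx s` is the closed simplex of the vertex set `s`.
-/

namespace Pool.Agent.H84.CL

open Set

variable {V : Type*} [Fintype V]

/-- The closed simplex with vertex set `s`. -/
def splx (s : Set V) : Set (V → ℝ) := {w | (∀ v, 0 ≤ w v) ∧ ∑ v, w v = 1 ∧ ∀ v, v ∉ s → w v = 0}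

theorem splx_mono {s t : Set V} (h : s ⊆ t) : splx s ⊆ splx t :=
  fun _ hw => ⟨hw.1, hw.2.1, fun v hv => hw.2.2 v (fun h' => hv (h h'))⟩

theorem splx_inter (s t : Set V) : splx s ∩ splx t = splx (s ∩ t) := by
  ext w
  constructor
  · rintro ⟨h1, h2⟩
    refine ⟨h1.1, h1.2.1, fun v hv => ?_⟩
    by_cases hvs : v ∈ s
    · exact h2.2.2 v (fun h => hv ⟨hvs, h⟩)
    · exact h1.2.2 v hvs
  · intro h
    exact ⟨⟨h.1, h.2.1, fun v hv => h.2.2 v (fun h' => hv h'.1)⟩,
      ⟨h.1, h.2.1, fun v hv => h.2.2 v (fun h' => hv h'.2)⟩⟩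

theorem convex_splx (s : Set V) : Convex ℝ (splx s) := by
  intro w hw z hz a b ha hb hab
  refine ⟨fun v => ?_, ?_, fun v hv => ?_⟩
  · simp only [Pi.add_apply, Pi.smul_apply, smul_eq_mul]
    exact add_nonneg (mul_nonneg ha (hw.1 v)) (mul_nonneg hb (hz.1 v))
  · simp only [Pi.add_apply, Pi.smul_apply, smul_eq_mul, Finset.sum_add_distrib,
      ← Finset.mul_sum, hw.2.1, hz.2.1]
    linarith
  · simp only [Pi.add_apply, Pi.smul_apply, smul_eq_mul, hw.2.2 v hv, hz.2.2 v hv]
    ring

theorem isClosed_splx (s : Set V) : IsClosed (splx s) := by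
  have h : splx s = (⋂ v, {w : V → ℝ | 0 ≤ w v}) ∩ {w | ∑ v, w v = 1} ∩
      (⋂ v : V, ⋂ (_ : v ∉ s), {w : V → ℝ | w v = 0}) := by
    ext w
    simp [splx, and_assoc]
  rw [h]
  refine (IsClosed.inter (isClosed_iInter fun v => isClosed_le continuous_const
    (continuous_apply v)) (isClosed_eq (by fun_prop) continuous_const)).inter
    (isClosed_iInter fun v => isClosed_iInter fun _ => isClosed_eq (continuous_apply v)
      continuous_const)

variable [DecidableEq V]

/-- The vertex `x` as a point of the realization. -/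
def vtx (x : V) : V → ℝ := Pi.single x 1

theorem vtx_mem {s : Set V} {x : V} (hx : x ∈ s) : vtx x ∈ splx s := by
  refine ⟨fun v => ?_, by simp [vtx], fun v hv => ?_⟩
  · unfold vtx
    by_cases h : v = x
    · subst h; simp
    · simp [Pi.single_apply, h]
  · have h : v ≠ x := fun h => hv (h ▸ hx)
    simp [vtx, Pi.single_apply, h]

theorem isPreconnected_splx (s : Set V) : IsPreconnected (splx s) := (convex_splx s).isPreconnected

open Classical in
/-- The increment of a real lift of `f` along the edge from `x` to `y`. -/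
noncomputable def inc (f : (V → ℝ) → Circle) (x y : V) : ℝ :=
  if h : ∃ g : (V → ℝ) → ℝ, ContinuousOn g (splx {x, y}) ∧
      ∀ w ∈ splx ({x, y} : Set V), f w = Circle.exp (g w) then
    h.choose (vtx y) - h.choose (vtx x)
  else 0

/-- Characterization of `inc` by an arbitrary lift on a preconnected set which contains the edge. -/
theorem inc_eq {f : (V → ℝ) → Circle} {x y : V} {g : (V → ℝ) → ℝ}
    (hg : ContinuousOn g (splx {x, y})) (hf : ∀ w ∈ splx ({x, y} : Set V), f w = Circle.exp (g w)) :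
    inc f x y = g (vtx y) - g (vtx x) := by
  have h : ∃ g : (V → ℝ) → ℝ, ContinuousOn g (splx {x, y}) ∧
      ∀ w ∈ splx ({x, y} : Set V), f w = Circle.exp (g w) := ⟨g, hg, hf⟩
  unfold inc
  rw [dif_pos h]
  refine lift_sub_eq (isPreconnected_splx _) h.choose_spec.1 hg ?_ (vtx_mem (by simp))
    (vtx_mem (by simp))
  intro w hw
  rw [← h.choose_spec.2 w hw, ← hf w hw]

theorem inc_eq_of_subset {f : (V → ℝ) → Circle} {x y : V} {g : (V → ℝ) → ℝ} {S : Set (V → ℝ)}
    (hS : splx {x, y} ⊆ S) (hg : ContinuousOn g S) (hf : ∀ w ∈ S, f w = Circle.exp (g w)) :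
    inc f x y = g (vtx y) - g (vtx x) :=
  inc_eq (hg.mono hS) (fun w hw => hf w (hS hw))

theorem inc_self (f : (V → ℝ) → Circle) (x : V) (hf : ContinuousOn f (splx {x})) :
    inc f x x = 0 := by
  have h1 : ({x, x} : Set V) = {x} := by simp
  obtain ⟨g, hg, hgf⟩ := exists_lift (convex_splx ({x} : Set V)) hf
  rw [inc_eq (g := g) (by rw [h1]; exact hg) (by rw [h1]; exact hgf)]
  ring

theorem inc_comm (f : (V → ℝ) → Circle) (x y : V) (hf : ContinuousOn f (splx {x, y})) :
    inc f y x = - inc f x y := by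
  obtain ⟨g, hg, hgf⟩ := exists_lift (convex_splx ({x, y} : Set V)) hf
  have h1 : ({y, x} : Set V) = {x, y} := Set.pair_comm y x
  rw [inc_eq hg hgf, inc_eq (g := g) (by rw [h1]; exact hg) (by rw [h1]; exact hgf)]
  ring

/-- Cocycle relation on a simplex on which `f` is continuous. -/
theorem inc_add {f : (V → ℝ) → Circle} {s : Set V} (hf : ContinuousOn f (splx s)) {x y z : V}
    (hx : x ∈ s) (hy : y ∈ s) (hz : z ∈ s) : inc f x y + inc f y z = inc f x z := by
  obtain ⟨g, hg, hgf⟩ := exists_lift (convex_splx s) hf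
  have h1 : splx {x, y} ⊆ splx s := splx_mono (by
    intro v hv; rcases hv with rfl | rfl <;> assumption)
  have h2 : splx {y, z} ⊆ splx s := splx_mono (by
    intro v hv; rcases hv with rfl | rfl <;> assumption)
  have h3 : splx {x, z} ⊆ splx s := splx_mono (by
    intro v hv; rcases hv with rfl | rfl <;> assumption)
  rw [inc_eq_of_subset h1 hg hgf, inc_eq_of_subset h2 hg hgf, inc_eq_of_subset h3 hg hgf]
  ring

theorem exp_inc {f : (V → ℝ) → Circle} {x y : V} (hf : ContinuousOn f (splx {x, y})) :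
    Circle.exp (inc f x y) * f (vtx x) = f (vtx y) := by
  obtain ⟨g, hg, hgf⟩ := exists_lift (convex_splx ({x, y} : Set V)) hf
  rw [inc_eq hg hgf, hgf _ (vtx_mem (by simp)), hgf _ (vtx_mem (by simp)), ← Circle.exp_add]
  congr 1
  ring

theorem inc_mul {f h : (V → ℝ) → Circle} {x y : V} (hf : ContinuousOn f (splx {x, y}))
    (hh : ContinuousOn h (splx {x, y})) :
    inc (fun w => f w * h w) x y = inc f x y + inc h x y := by
  obtain ⟨g, hg, hgf⟩ := exists_lift (convex_splx ({x, y} : Set V)) hf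
  obtain ⟨k, hk, hkf⟩ := exists_lift (convex_splx ({x, y} : Set V)) hh
  rw [inc_eq hg hgf, inc_eq hk hkf, inc_eq (g := fun w => g w + k w) (hg.add hk) (by
    intro w hw
    simp only [hgf w hw, hkf w hw, Circle.exp_add])]
  ring

theorem inc_inv {f : (V → ℝ) → Circle} {x y : V} (hf : ContinuousOn f (splx {x, y})) :
    inc (fun w => (f w)⁻¹) x y = - inc f x y := by
  obtain ⟨g, hg, hgf⟩ := exists_lift (convex_splx ({x, y} : Set V)) hf
  rw [inc_eq hg hgf, inc_eq (g := fun w => - g w) hg.neg (by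
    intro w hw
    simp only [hgf w hw, Circle.exp_neg])]
  ring

theorem inc_zpow {f : (V → ℝ) → Circle} {x y : V} (hf : ContinuousOn f (splx {x, y})) (n : ℤ) :
    inc (fun w => (f w) ^ n) x y = n * inc f x y := by
  obtain ⟨g, hg, hgf⟩ := exists_lift (convex_splx ({x, y} : Set V)) hf
  rw [inc_eq hg hgf, inc_eq (g := fun w => n * g w) (continuousOn_const.mul hg) (by
    intro w hw
    rw [hgf w hw, ← Circle.exp_zsmul, zsmul_eq_mul])]
  ring

theorem inc_prod {ι : Type*} (A : Finset ι) {f : ι → (V → ℝ) → Circle} {x y : V}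
    (hf : ∀ i ∈ A, ContinuousOn (f i) (splx {x, y})) :
    inc (fun w => ∏ i ∈ A, f i w) x y = ∑ i ∈ A, inc (f i) x y := by
  classical
  induction A using Finset.induction_on with
  | empty =>
    simp only [Finset.prod_empty, Finset.sum_empty]
    rw [inc_eq (g := fun _ => 0) continuousOn_const (by intro w _; simp)]
    ring
  | insert a A ha ih =>
    simp only [Finset.prod_insert ha, Finset.sum_insert ha]
    rw [inc_mul (hf a (Finset.mem_insert_self a A)), ih (fun i hi =>
      hf i (Finset.mem_insert_of_mem hi))]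
    exact continuousOn_finsetProd A (fun i hi => hf i (Finset.mem_insert_of_mem hi))

/-- The map of realizations induced by a permutation of the vertices. -/
def pmap (φ : V ≃ V) (w : V → ℝ) : V → ℝ := fun v => w (φ.symm v)

theorem continuous_pmap (φ : V ≃ V) : Continuous (pmap φ) :=
  continuous_pi fun v => continuous_apply (φ.symm v)

theorem pmap_vtx (φ : V ≃ V) (x : V) : pmap φ (vtx x) = vtx (φ x) := by
  funext v
  unfold pmap vtx
  simp only [Pi.single_apply, Equiv.symm_apply_eq]

theorem pmap_mem {φ : V ≃ V} {s : Set V} {w : V → ℝ} (hw : w ∈ splx s) :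
    pmap φ w ∈ splx (φ '' s) := by
  refine ⟨fun v => hw.1 _, ?_, fun v hv => ?_⟩
  · unfold pmap
    rw [Equiv.sum_comp φ.symm w]
    exact hw.2.1
  · apply hw.2.2
    intro h
    exact hv ⟨φ.symm v, h, by simp⟩

theorem inc_comp {f : (V → ℝ) → Circle} {φ : V ≃ V} {x y : V}
    (hf : ContinuousOn f (splx {φ x, φ y})) :
    inc (fun w => f (pmap φ w)) x y = inc f (φ x) (φ y) := by
  obtain ⟨g, hg, hgf⟩ := exists_lift (convex_splx ({φ x, φ y} : Set V)) hf
  have himg : φ '' {x, y} = {φ x, φ y} := Set.image_pair φ x y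
  have h1 : MapsTo (pmap φ) (splx {x, y}) (splx {φ x, φ y}) := by
    intro w hw
    rw [← himg]
    exact pmap_mem hw
  rw [inc_eq hg hgf, inc_eq (g := fun w => g (pmap φ w))
    (hg.comp (continuous_pmap φ).continuousOn h1) (fun w hw => hgf _ (h1 hw))]
  rw [pmap_vtx, pmap_vtx]

/-- The realization of a complex given by a set of faces. -/
def rlz (K : Set (Set V)) : Set (V → ℝ) := ⋃ s ∈ K, splx s

/-- **Gluing.** If the increments of `f` come from a vertex potential then `f` has a continuous
real lift on the whole realization. -/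
theorem exists_global_lift {K : Set (Set V)}
    {f : (V → ℝ) → Circle} (hf : ∀ s ∈ K, ContinuousOn f (splx s))
    {F : V → ℝ} (hF : ∀ s ∈ K, ∀ x ∈ s, Circle.exp (F x) = f (vtx x))
    (hinc : ∀ s ∈ K, ∀ x ∈ s, ∀ y ∈ s, inc f x y = F y - F x) :
    ∃ g : (V → ℝ) → ℝ, ContinuousOn g (rlz K) ∧ ∀ w ∈ rlz K, f w = Circle.exp (g w) := by
  classical
  -- normalized lifts on the faces
  have key : ∀ s ∈ K, ∃ g : (V → ℝ) → ℝ, ContinuousOn g (splx s) ∧
      (∀ w ∈ splx s, f w = Circle.exp (g w)) ∧ ∀ x ∈ s, g (vtx x) = F x := by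
    intro s hs
    rcases s.eq_empty_or_nonempty with rfl | ⟨x0, hx0⟩
    · refine ⟨fun _ => 0, continuousOn_const, ?_, fun x hx => absurd hx (notMem_empty x)⟩
      intro w hw
      exfalso
      have h1 : ∑ v, w v = 0 := Finset.sum_eq_zero fun v _ => hw.2.2 v (notMem_empty v)
      have h2 := hw.2.1
      linarith
    obtain ⟨g, hg, hgf⟩ := exists_lift (convex_splx s) (hf s hs)
    have h0 : Circle.exp (g (vtx x0)) = Circle.exp (F x0) := by
      rw [← hgf _ (vtx_mem hx0), hF s hs x0 hx0]
    have h0' : Circle.exp (F x0 - g (vtx x0)) = 1 := by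
      rw [Circle.exp_sub, h0, div_self']
    refine ⟨fun w => g w + (F x0 - g (vtx x0)), hg.add continuousOn_const, ?_, ?_⟩
    · intro w hw
      show f w = Circle.exp (g w + (F x0 - g (vtx x0)))
      rw [Circle.exp_add, h0', mul_one]
      exact hgf w hw
    · intro x hx
      have h1 : splx {x0, x} ⊆ splx s := splx_mono (by
        intro v hv; rcases hv with rfl | rfl <;> assumption)
      have h2 := hinc s hs x0 hx0 x hx
      rw [inc_eq_of_subset h1 hg hgf] at h2
      show g (vtx x) + (F x0 - g (vtx x0)) = F x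
      linarith
  choose! G hG1 hG2 hG3 using key
  -- compatibility on intersections
  have compat : ∀ s ∈ K, ∀ t ∈ K, ∀ w ∈ splx s, w ∈ splx t → G s w = G t w := by
    intro s hs t ht w hws hwt
    have hw : w ∈ splx (s ∩ t) := splx_inter s t ▸ ⟨hws, hwt⟩
    have hne : (s ∩ t).Nonempty := by
      by_contra hcon
      rw [Set.not_nonempty_iff_eq_empty] at hcon
      rw [hcon] at hw
      have h1 : ∑ v, w v = 0 := Finset.sum_eq_zero fun v _ => hw.2.2 v (notMem_empty v)
      have h2 := hw.2.1
      linarith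
    obtain ⟨x, hx⟩ := hne
    have h1 := lift_sub_eq (isPreconnected_splx (s ∩ t))
      ((hG1 s hs).mono (splx_mono inter_subset_left))
      ((hG1 t ht).mono (splx_mono inter_subset_right))
      (fun z hz => by
        rw [← hG2 s hs z (splx_mono inter_subset_left hz),
          ← hG2 t ht z (splx_mono inter_subset_right hz)])
      (vtx_mem hx) hw
    rw [hG3 s hs x hx.1, hG3 t ht x hx.2] at h1
    linarith
  let g : (V → ℝ) → ℝ := fun w => if h : ∃ s, s ∈ K ∧ w ∈ splx s then G h.choose w else 0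
  have hg : ∀ s ∈ K, ∀ w ∈ splx s, g w = G s w := by
    intro s hs w hw
    have h : ∃ s, s ∈ K ∧ w ∈ splx s := ⟨s, hs, hw⟩
    show (if h : ∃ s, s ∈ K ∧ w ∈ splx s then G h.choose w else 0) = G s w
    rw [dif_pos h]
    exact compat _ h.choose_spec.1 _ hs w h.choose_spec.2 hw
  refine ⟨g, ?_, ?_⟩
  · have hfin : K.Finite := Set.toFinite K
    have h1 : rlz K = ⋃ s : K, splx (s : Set V) := by
      unfold rlz
      rw [Set.biUnion_eq_iUnion]
    rw [h1]
    haveI : Finite K := hfin
    refine LocallyFinite.continuousOn_iUnion (locallyFinite_of_finite _)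
      (fun s => isClosed_splx _) ?_
    intro s
    exact (hG1 s.1 s.2).congr (fun w hw => hg s.1 s.2 w hw)
  · intro w hw
    simp only [rlz, mem_iUnion, exists_prop] at hw
    obtain ⟨s, hs, hws⟩ := hw
    rw [hg s hs w hws]
    exact hG2 s hs w hws

end Pool.Agent.H84.CL
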