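import Mathlib
import Pool.Agent.H84.CL.Cocycle

set_option autoImplicit false

/-!
# Circle-valued maps on a finite simplicial complex: edge increments and global lifts

`K : Set (Finset V)` is a set of faces closed under nonempty subsets; `rl K` is its realization in
barycentric coordinates (same shape as `Pool.H47.CP.real`).
-/

namespace Pool.Agent.H84.CL

open Set

variable {V : Type*} [Fintype V]

/-- Geometric realization. -/
def rl (K : Set (Finset V)) : Set (V → ℝ) :=
  {f | (∀ v, 0 ≤ f v) ∧ ∑ v, f v = 1 ∧ (Finset.univ.filter fun v => f v ≠ 0) ∈ K}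

/-- `K` is closed under nonempty subsets. -/
def DownK (K : Set (Finset V)) : Prop := ∀ s ∈ K, ∀ t ⊆ s, t.Nonempty → t ∈ K

theorem supp_nonempty {w : V → ℝ} (h : ∑ v, w v = 1) :
    (Finset.univ.filter fun v => w v ≠ 0).Nonempty := by
  by_contra hcon
  rw [Finset.not_nonempty_iff_eq_empty, Finset.filter_eq_empty_iff] at hcon
  have h0 : ∑ v, w v = 0 := Finset.sum_eq_zero fun v _ => by
    simpa using hcon (Finset.mem_univ v)
  linarith

theorem splx_subset_rl {K : Set (Finset V)} (hK : DownK K) {s : Finset V} (hs : s ∈ K) :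
    splx (s : Set V) ⊆ rl K := by
  intro w hw
  refine ⟨hw.1, hw.2.1, hK s hs _ ?_ (supp_nonempty hw.2.1)⟩
  intro v hv
  rw [Finset.mem_filter] at hv
  by_contra hcon
  exact hv.2 (hw.2.2 v (by simpa using hcon))

theorem mem_splx_supp {w : V → ℝ} (h0 : ∀ v, 0 ≤ w v) (h1 : ∑ v, w v = 1) :
    w ∈ splx ((Finset.univ.filter fun v => w v ≠ 0 : Finset V) : Set V) := by
  refine ⟨h0, h1, fun v hv => ?_⟩
  by_contra hcon
  exact hv (by simp [hcon])

theorem rl_eq_rlz {K : Set (Finset V)} (hK : DownK K) :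
    rl K = rlz ((fun s : Finset V => (s : Set V)) '' K) := by
  ext w
  constructor
  · rintro ⟨h0, h1, h2⟩
    simp only [rlz, mem_iUnion, exists_prop]
    exact ⟨_, ⟨_, h2, rfl⟩, mem_splx_supp h0 h1⟩
  · intro hw
    simp only [rlz, mem_iUnion, exists_prop] at hw
    obtain ⟨s, ⟨t, ht, rfl⟩, hws⟩ := hw
    exact splx_subset_rl hK ht hws

/-- **L1.** A circle-valued map continuous on the realization has a continuous real lift on every
face. -/
theorem lift_face {K : Set (Finset V)} (hK : DownK K) {f : (V → ℝ) → Circle}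
    (hf : ContinuousOn f (rl K)) {s : Finset V} (hs : s ∈ K) :
    ∃ g : (V → ℝ) → ℝ, ContinuousOn g (splx (s : Set V)) ∧
      ∀ w ∈ splx (s : Set V), f w = Circle.exp (g w) :=
  exists_lift (convex_splx _) (hf.mono (splx_subset_rl hK hs))

/-- **L1, uniqueness.** Two lifts on a preconnected set differ by a constant in `2 π ℤ`. -/
theorem lift_unique {X : Type*} [TopologicalSpace X] {S : Set X} (hS : IsPreconnected S)
    {g h : X → ℝ} (hg : ContinuousOn g S) (hh : ContinuousOn h S)
    (he : ∀ w ∈ S, Circle.exp (g w) = Circle.exp (h w)) :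
    ∃ m : ℤ, ∀ w ∈ S, g w = h w + m * (2 * Real.pi) := by
  rcases S.eq_empty_or_nonempty with rfl | ⟨x, hx⟩
  · exact ⟨0, fun w hw => absurd hw (notMem_empty w)⟩
  obtain ⟨m, hm⟩ := Circle.exp_eq_exp.1 (he x hx)
  refine ⟨m, fun w hw => ?_⟩
  have h1 := lift_sub_eq hS hg hh he hx hw
  linarith

variable [DecidableEq V]

theorem edge_subset {K : Set (Finset V)} (hK : DownK K) {x y : V} (hxy : {x, y} ∈ K) :
    splx ({x, y} : Set V) ⊆ rl K := by
  have h := splx_subset_rl hK hxy
  simpa using h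

theorem edge_subset_of {K : Set (Finset V)} (hK : DownK K) {s : Finset V} (hs : s ∈ K) {x y : V}
    (hx : x ∈ s) (hy : y ∈ s) : splx ({x, y} : Set V) ⊆ splx (s : Set V) :=
  splx_mono (by intro v hv; rcases hv with rfl | rfl <;> assumption)

/-- **L2.** Increment from any lift on any set containing the edge. -/
theorem inc_of_lift {f : (V → ℝ) → Circle} {S : Set (V → ℝ)} {g : (V → ℝ) → ℝ}
    (hg : ContinuousOn g S) (hf : ∀ w ∈ S, f w = Circle.exp (g w)) {x y : V}
    (hS : splx ({x, y} : Set V) ⊆ S) : inc f x y = g (vtx y) - g (vtx x) :=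
  inc_eq_of_subset hS hg hf

/-- **L2, cocycle relation** on a face. -/
theorem inc_face_add {K : Set (Finset V)} (hK : DownK K) {f : (V → ℝ) → Circle}
    (hf : ContinuousOn f (rl K)) {s : Finset V} (hs : s ∈ K) {x y z : V}
    (hx : x ∈ s) (hy : y ∈ s) (hz : z ∈ s) : inc f x y + inc f y z = inc f x z :=
  inc_add (hf.mono (splx_subset_rl hK hs)) (by exact_mod_cast hx) (by exact_mod_cast hy)
    (by exact_mod_cast hz)

theorem cont_edge {K : Set (Finset V)} (hK : DownK K) {f : (V → ℝ) → Circle}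
    (hf : ContinuousOn f (rl K)) {s : Finset V} (hs : s ∈ K) {x y : V} (hx : x ∈ s) (hy : y ∈ s) :
    ContinuousOn f (splx ({x, y} : Set V)) :=
  hf.mono ((edge_subset_of hK hs hx hy).trans (splx_subset_rl hK hs))

theorem inc_face_self {K : Set (Finset V)} (hK : DownK K) {f : (V → ℝ) → Circle}
    (hf : ContinuousOn f (rl K)) {s : Finset V} (hs : s ∈ K) {x : V} (hx : x ∈ s) :
    inc f x x = 0 := by
  have h := inc_face_add hK hf hs hx hx hx
  linarith

theorem inc_face_comm {K : Set (Finset V)} (hK : DownK K) {f : (V → ℝ) → Circle}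
    (hf : ContinuousOn f (rl K)) {s : Finset V} (hs : s ∈ K) {x y : V} (hx : x ∈ s) (hy : y ∈ s) :
    inc f y x = - inc f x y :=
  inc_comm f x y (cont_edge hK hf hs hx hy)

theorem exp_inc_face {K : Set (Finset V)} (hK : DownK K) {f : (V → ℝ) → Circle}
    (hf : ContinuousOn f (rl K)) {s : Finset V} (hs : s ∈ K) {x y : V} (hx : x ∈ s) (hy : y ∈ s) :
    Circle.exp (inc f x y) * f (vtx x) = f (vtx y) :=
  exp_inc (cont_edge hK hf hs hx hy)

/-- **Gluing (L3).** If the increments of `f` come from a vertex potential `F` with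
`exp (i F x) = f (vtx x)`, then `f` has a continuous real lift on the realization. -/
theorem lift_global {K : Set (Finset V)} (hK : DownK K) {f : (V → ℝ) → Circle}
    (hf : ContinuousOn f (rl K)) {F : V → ℝ}
    (hF : ∀ s ∈ K, ∀ x ∈ s, Circle.exp (F x) = f (vtx x))
    (hinc : ∀ s ∈ K, ∀ x ∈ s, ∀ y ∈ s, inc f x y = F y - F x) :
    ∃ g : (V → ℝ) → ℝ, ContinuousOn g (rl K) ∧ ∀ w ∈ rl K, f w = Circle.exp (g w) := by
  rw [rl_eq_rlz hK]
  apply exists_global_lift (F := F)
  · rintro _ ⟨s, hs, rfl⟩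
    exact hf.mono (splx_subset_rl hK hs)
  · rintro _ ⟨s, hs, rfl⟩ x hx
    exact hF s hs x (by exact_mod_cast hx)
  · rintro _ ⟨s, hs, rfl⟩ x hx y hy
    exact hinc s hs x (by exact_mod_cast hx) y (by exact_mod_cast hy)

/-- **Gluing (L3), potential up to a constant.** It is enough that the increments come from a vertex
potential, provided there is a vertex `x0` joined to every vertex of `K` by an edge of `K`. -/
theorem lift_global' {K : Set (Finset V)} (hK : DownK K) {f : (V → ℝ) → Circle}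
    (hf : ContinuousOn f (rl K)) {x0 : V} (hx0 : ∀ s ∈ K, ∀ x ∈ s, {x0, x} ∈ K) {F : V → ℝ}
    (hinc : ∀ s ∈ K, ∀ x ∈ s, ∀ y ∈ s, inc f x y = F y - F x) :
    ∃ g : (V → ℝ) → ℝ, ContinuousOn g (rl K) ∧ ∀ w ∈ rl K, f w = Circle.exp (g w) := by
  obtain ⟨e0, he0⟩ := Circle.exp_surjective (f (vtx x0))
  apply lift_global hK hf (F := fun x => F x + (e0 - F x0))
  · intro s hs x hx
    have h1 := hx0 s hs x hx
    have h2 := exp_inc_face hK hf h1 (x := x0) (y := x) (by simp) (by simp)
    have h3 := hinc _ h1 x0 (by simp) x (by simp)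
    show Circle.exp (F x + (e0 - F x0)) = f (vtx x)
    have h4 : F x + (e0 - F x0) = inc f x0 x + e0 := by rw [h3]; ring
    rw [h4, Circle.exp_add, he0, h2]
  · intro s hs x hx y hy
    rw [hinc s hs x hx y hy]
    ring

/-- The sum of the increments along a closed edge path of `K` is in `2 π ℤ`. -/
theorem sum_inc_closed {K : Set (Finset V)} (hK : DownK K) {f : (V → ℝ) → Circle}
    (hf : ContinuousOn f (rl K)) (p : ℕ → V) (n : ℕ) (hp : ∀ k < n, {p k, p (k + 1)} ∈ K)
    (hn : p n = p 0) : ∃ m : ℤ, ∑ k ∈ Finset.range n, inc f (p k) (p (k + 1)) = m * (2 * Real.pi) := by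
  have key : ∀ k ≤ n, Circle.exp (∑ j ∈ Finset.range k, inc f (p j) (p (j + 1))) * f (vtx (p 0)) =
      f (vtx (p k)) := by
    intro k
    induction k with
    | zero => intro _; simp
    | succ k ih =>
      intro hk
      rw [Finset.sum_range_succ, Circle.exp_add, mul_comm (Circle.exp _) (Circle.exp _), mul_assoc,
        ih (by omega)]
      exact exp_inc_face hK hf (hp k (by omega)) (by simp) (by simp)
  have h1 := key n le_rfl
  rw [hn] at h1
  have h2 : Circle.exp (∑ j ∈ Finset.range n, inc f (p j) (p (j + 1))) = 1 := by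
    simpa using h1
  obtain ⟨m, hm⟩ := Circle.exp_eq_one.1 h2
  exact ⟨m, hm⟩

end Pool.Agent.H84.CL
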