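import Mathlib
import Pool.Agent.H84.CL.Complex

set_option autoImplicit false

/-!
# From unimodular complex-valued maps to circle-valued maps
-/

namespace Pool.Agent.H84.CL

open Set

/-- A unimodular complex number as an element of the circle (junk value otherwise). -/
noncomputable def circ (z : ℂ) : Circle := Circle.exp z.arg

theorem coe_circ {z : ℂ} (hz : ‖z‖ = 1) : (circ z : ℂ) = z := by
  unfold circ
  rw [Circle.coe_exp]
  have h := Complex.norm_mul_exp_arg_mul_I z
  rw [hz] at h
  simpa using h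

theorem circ_mul {z w : ℂ} (hz : ‖z‖ = 1) (hw : ‖w‖ = 1) : circ (z * w) = circ z * circ w := by
  apply Circle.ext
  rw [Circle.coe_mul, coe_circ hz, coe_circ hw, coe_circ (by rw [norm_mul, hz, hw, mul_one])]

theorem circ_zpow {z : ℂ} (hz : ‖z‖ = 1) (n : ℤ) : circ (z ^ n) = circ z ^ n := by
  apply Circle.ext
  rw [Circle.coe_zpow, coe_circ hz, coe_circ (by rw [norm_zpow, hz, one_zpow])]

theorem circ_prod {ι : Type*} (A : Finset ι) {z : ι → ℂ} (hz : ∀ i ∈ A, ‖z i‖ = 1) :
    circ (∏ i ∈ A, z i) = ∏ i ∈ A, circ (z i) := by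
  classical
  induction A using Finset.induction_on with
  | empty =>
    simp only [Finset.prod_empty]
    apply Circle.ext
    rw [coe_circ (by simp)]
    simp
  | insert a A ha ih =>
    have h1 : ∀ i ∈ A, ‖z i‖ = 1 := fun i hi => hz i (Finset.mem_insert_of_mem hi)
    rw [Finset.prod_insert ha, Finset.prod_insert ha, circ_mul (hz a (Finset.mem_insert_self a A)),
      ih h1]
    rw [norm_prod]
    exact Finset.prod_eq_one h1

theorem continuousOn_circ {X : Type*} [TopologicalSpace X] {S : Set X} {u : X → ℂ}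
    (hu : ContinuousOn u S) (h1 : ∀ q ∈ S, ‖u q‖ = 1) : ContinuousOn (fun q => circ (u q)) S := by
  have hind : Topology.IsInducing (fun z : Circle => (z : ℂ)) := ⟨rfl⟩
  refine hind.continuousOn_iff.2 (hu.congr (fun q hq => ?_))
  show ((circ (u q) : Circle) : ℂ) = u q
  exact coe_circ (h1 q hq)

theorem circ_eq_exp_iff {z : ℂ} (hz : ‖z‖ = 1) (t : ℝ) :
    circ z = Circle.exp t ↔ z = Complex.exp (t * Complex.I) := by
  constructor
  · intro h
    rw [← coe_circ hz, h, Circle.coe_exp]
  · intro h
    apply Circle.ext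
    rw [coe_circ hz, Circle.coe_exp, h]

end Pool.Agent.H84.CL
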