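import Mathlib
import Pool.Agent.H84.CL.Cx
import Pool.Agent.H47.CP.Defs

set_option autoImplicit false

/-!
# The lifting statements of `Pool.H47.CP.Defs`
-/

namespace Pool.Agent.H84.CL

open Set Pool.H47.CP

theorem liftStmt : LiftStmt := by
  intro K hK u hu h1
  obtain ⟨g, hg, hgf⟩ := exists_lift hK (continuousOn_circ hu h1)
  exact ⟨g, hg, fun q hq => (circ_eq_exp_iff (h1 q hq) (g q)).1 (hgf q hq)⟩

theorem liftUniqStmt : LiftUniqStmt := by
  intro K hK F F' hF hF' he
  obtain ⟨m, hm⟩ := lift_unique hK hF' hF (fun w hw => by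
    apply Circle.ext
    rw [Circle.coe_exp, Circle.coe_exp]
    exact (he w hw).symm)
  exact ⟨m * (2 * Real.pi), hm⟩

/-- The realization of `Pool.H47.CP` is the one used here. -/
theorem real_eq_rl (C : Set (Finset Vt)) : real C = rl C := rfl

end Pool.Agent.H84.CL
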